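import Pool.Agent.X13.TT.Series

/-!
# A definite cone identity

`∑_m (-1)^m q^{2m} (-q^2;q^2)_m / (1-q^{2m+1}) = ∑_n q^{n^2+2n} ∑_{i ≤ 2n+1} q^{i(i+1)/2}`
-/

namespace Pool.Agent.X13.QS

open PowerSeries Finset

noncomputable section

/-- `(Q;Q)_{k+M} / (Q;Q)_k`, `Q = q^2` -/
def R (k M : ℕ) : ℤ⟦X⟧ := ∏ i ∈ range M, (1 - X ^ (2 * (k + 1 + i)))

theorem R_zero (k : ℕ) : R k 0 = 1 := by simp [R]

theorem R_succ (k M : ℕ) : R k (M + 1) = R k M * (1 - X ^ (2 * (k + 1 + M))) := by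
  unfold R; rw [prod_range_succ]

theorem R_succ' (k M : ℕ) : R k (M + 1) = (1 - X ^ (2 * (k + 1))) * R (k + 1) M := by
  unfold R
  rw [prod_range_succ', mul_comm, add_zero]
  congr 1
  refine prod_congr rfl fun i _ => ?_
  congr 2
  ring

theorem R_add (k a b : ℕ) : R k (a + b) = R k a * R (k + a) b := by
  unfold R
  rw [prod_range_add]
  congr 1
  refine prod_congr rfl fun i _ => ?_
  congr 2
  ring

/-! ### Lebesgue's identity -/

/-- truncated sum -/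
def E (j K : ℕ) : ℤ⟦X⟧ := ∑ k ∈ range K, X ^ (k * (k + 1)) * R k (2 * j + 1)

/-- `(Q^2;Q^2)_j` -/
def P4 (j : ℕ) : ℤ⟦X⟧ := ∏ i ∈ range j, (1 - X ^ (4 * (i + 1)))

theorem E_zero (K : ℕ) : E 0 K = 1 - X ^ (K * (K + 1)) := by
  unfold E
  induction K with
  | zero => simp
  | succ K ih =>
    rw [sum_range_succ, ih, mul_zero, zero_add, R_succ, R_zero, add_zero]
    ring

theorem E_succ (j K : ℕ) : E (j + 1) K = (1 - X ^ (4 * (j + 1))) * E j K
    - X ^ (4 * (j + 1)) * (X ^ (K * (K + 1)) * (1 - X ^ (2 * K)) * R K (2 * j + 1)) := by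
  unfold E
  induction K with
  | zero => simp
  | succ K ih =>
    rw [sum_range_succ, sum_range_succ, ih]
    have h1 : R K (2 * (j + 1) + 1) = R K (2 * j + 1) * (1 - X ^ (2 * (K + 1 + (2 * j + 1))))
        * (1 - X ^ (2 * (K + 1 + (2 * j + 1 + 1)))) := by
      rw [show 2 * (j + 1) + 1 = 2 * j + 1 + 1 + 1 by ring, R_succ, R_succ]
    have h2 : (1 - X ^ (2 * (K + 1))) * R (K + 1) (2 * j + 1)
        = R K (2 * j + 1) * (1 - X ^ (2 * (K + 1 + (2 * j + 1)))) := by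
      rw [← R_succ', R_succ]
    rw [h1]
    linear_combination (X ^ (4 * (j + 1)) * X ^ ((K + 1) * (K + 1 + 1))) * h2

theorem E_dvd (j K : ℕ) : (X : ℤ⟦X⟧) ^ (K * (K + 1)) ∣ E j K - P4 j := by
  induction j with
  | zero =>
    rw [E_zero]
    unfold P4
    rw [range_zero, prod_empty]
    exact ⟨-1, by ring⟩
  | succ j ih =>
    obtain ⟨c, hc⟩ := ih
    have h1 : P4 (j + 1) = P4 j * (1 - X ^ (4 * (j + 1))) := by
      unfold P4; rw [prod_range_succ]
    refine ⟨(1 - X ^ (4 * (j + 1))) * c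
      - X ^ (4 * (j + 1)) * ((1 - X ^ (2 * K)) * R K (2 * j + 1)), ?_⟩
    rw [E_succ, h1]
    linear_combination (1 - X ^ (4 * (j + 1))) * hc

/-! ### Gaussian binomials in base `Q` -/

/-- Gaussian binomial -/
def qb : ℕ → ℕ → ℤ⟦X⟧
  | _, 0 => 1
  | 0, _ + 1 => 0
  | n + 1, j + 1 => X ^ (2 * (j + 1)) * qb n (j + 1) + qb n j

theorem qb_zero_right (n : ℕ) : qb n 0 = 1 := by cases n <;> rfl

theorem qb_succ (n j : ℕ) : qb (n + 1) (j + 1) = X ^ (2 * (j + 1)) * qb n (j + 1) + qb n j := rfl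

theorem qb_lt (n j : ℕ) (h : n < j) : qb n j = 0 := by
  induction n generalizing j with
  | zero =>
    obtain ⟨j', rfl⟩ : ∃ j', j = j' + 1 := ⟨j - 1, by omega⟩
    rfl
  | succ n ih =>
    obtain ⟨j', rfl⟩ : ∃ j', j = j' + 1 := ⟨j - 1, by omega⟩
    rw [qb_succ, ih _ (by omega), ih _ (by omega)]; ring

/-- `(Q;Q)_j` -/
def PQ (j : ℕ) : ℤ⟦X⟧ := ∏ i ∈ range j, (1 - X ^ (2 * (i + 1)))

theorem PQ_succ (j : ℕ) : PQ (j + 1) = PQ j * (1 - X ^ (2 * (j + 1))) := by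
  unfold PQ; rw [prod_range_succ]

theorem PQ_eq (j : ℕ) : PQ j = R 0 j := by
  unfold PQ R
  refine prod_congr rfl fun i _ => ?_
  congr 2; ring

theorem qb_spec (s : ℕ) : ∀ k j : ℕ, k + j = s → qb s j * PQ j = R k j := by
  induction s with
  | zero =>
    intro k j h
    obtain ⟨rfl, rfl⟩ : k = 0 ∧ j = 0 := by omega
    rw [qb_zero_right, PQ_eq, one_mul]
  | succ s ih =>
    intro k j h
    rcases j with _ | j
    · rw [qb_zero_right, R_zero]; simp [PQ]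
    rw [qb_succ]
    rcases k with _ | k
    · have hj : j = s := by omega
      subst hj
      rw [qb_lt _ _ (Nat.lt_succ_self _), mul_zero, zero_add, PQ_succ, ← mul_assoc,
        ih 0 j (by omega), R_succ]
      congr 3; ring
    · have h1 := ih k (j + 1) (by omega)
      have h2 := ih (k + 1) j (by omega)
      rw [PQ_succ] at h1 ⊢
      rw [R_succ'] at h1
      rw [R_succ]
      have e : (X : ℤ⟦X⟧) ^ (2 * (k + 1 + 1 + j)) = X ^ (2 * (j + 1)) * X ^ (2 * (k + 1)) := by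
        rw [← pow_add]; congr 1; ring
      rw [e]
      linear_combination X ^ (2 * (j + 1)) * h1 + (1 - X ^ (2 * (j + 1))) * h2

/-- `(b;Q)_j` -/
def pb (b : ℤ⟦X⟧) (j : ℕ) : ℤ⟦X⟧ := ∏ i ∈ range j, (1 - b * X ^ (2 * i))

theorem pb_succ' (b : ℤ⟦X⟧) (j : ℕ) : pb b (j + 1) = (1 - b) * pb (b * X ^ 2) j := by
  unfold pb
  rw [prod_range_succ', mul_comm, mul_zero, pow_zero, mul_one]
  congr 1
  refine prod_congr rfl fun i _ => ?_
  ring

/-- `q`-Vandermonde sum -/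
def F (n : ℕ) (b : ℤ⟦X⟧) : ℤ⟦X⟧ :=
  ∑ p ∈ antidiagonal n, (-1) ^ p.2 * qb n p.2 * X ^ (p.1 * (p.1 - 1)) * pb b p.2

theorem exp_succ (k : ℕ) : (k + 1) * (k + 1 - 1) = k * (k - 1) + 2 * k := by
  rcases k with _ | k
  · rfl
  · rw [Nat.add_sub_cancel, Nat.add_sub_cancel]; ring

theorem F_eq (n : ℕ) : ∀ b : ℤ⟦X⟧, F n b = X ^ (n * (n - 1)) * b ^ n := by
  induction n with
  | zero => intro b; simp [F, qb, pb]
  | succ n ih =>
    intro b
    have hrec : F (n + 1) b = X ^ (2 * n) * F n b - (1 - b) * F n (b * X ^ 2) := by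
      have hp : ∀ j, qb (n + 1) j = X ^ (2 * j) * qb n j + (if j = 0 then 0 else qb n (j - 1)) := by
        intro j
        rcases j with _ | j
        · rw [qb_zero_right, qb_zero_right, if_pos rfl]; simp
        · rw [qb_succ, if_neg (by omega), Nat.add_sub_cancel]
      have h1 : F (n + 1) b
          = ∑ p ∈ antidiagonal (n + 1), (-1) ^ p.2 * (X ^ (2 * p.2) * qb n p.2)
              * X ^ (p.1 * (p.1 - 1)) * pb b p.2
            + ∑ p ∈ antidiagonal (n + 1), (-1) ^ p.2 * (if p.2 = 0 then 0 else qb n (p.2 - 1))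
              * X ^ (p.1 * (p.1 - 1)) * pb b p.2 := by
        rw [← sum_add_distrib]
        unfold F
        refine sum_congr rfl fun p _ => ?_
        rw [hp]; ring
      rw [h1, Finset.Nat.sum_antidiagonal_succ, Finset.Nat.sum_antidiagonal_succ']
      simp only
      rw [qb_lt n (n + 1) (Nat.lt_succ_self n), if_pos trivial, sub_eq_add_neg, ← neg_mul]
      have e1 : ∑ p ∈ antidiagonal n, (-1) ^ p.2 * (X ^ (2 * p.2) * qb n p.2)
              * X ^ ((p.1 + 1) * (p.1 + 1 - 1)) * pb b p.2 = X ^ (2 * n) * F n b := by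
        unfold F
        rw [mul_sum]
        refine sum_congr rfl fun p hp => ?_
        have hp2 := HasAntidiagonal.mem_antidiagonal.mp hp
        rw [exp_succ, ← hp2]
        ring
      have e2 : ∑ p ∈ antidiagonal n, (-1) ^ (p.2 + 1) * (if p.2 + 1 = 0 then 0
              else qb n (p.2 + 1 - 1)) * X ^ (p.1 * (p.1 - 1)) * pb b (p.2 + 1)
            = -(1 - b) * F n (b * X ^ 2) := by
        unfold F
        rw [mul_sum]
        refine sum_congr rfl fun p hp => ?_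
        rw [if_neg (by omega), Nat.add_sub_cancel, pb_succ']
        ring
      rw [e1, e2]
      ring
    rw [hrec, ih, ih, exp_succ]
    ring

/-! ### the finite identity -/

/-- `1/(Q;Q)_j` -/
def ci (j : ℕ) : ℤ⟦X⟧ := ∏ i ∈ range j, TT.geo (2 * (i + 1))

theorem PQ_ci (j : ℕ) : PQ j * ci j = 1 := by
  unfold PQ ci
  rw [← prod_mul_distrib]
  exact prod_eq_one fun i _ => TT.one_sub_mul_geo (by omega)

/-- the summand of `B_n` -/
def be (k j : ℕ) : ℤ⟦X⟧ :=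
  (-1) ^ j * R k (2 * j + 1) * X ^ (k * (k - 1)) * ci j * TT.geo (2 * j + 1)

/-- `B_n` -/
def B (n : ℕ) : ℤ⟦X⟧ := ∑ p ∈ antidiagonal n, be p.1 p.2

/-- `D_n` -/
def D (n : ℕ) : ℤ⟦X⟧ :=
  ∑ p ∈ antidiagonal n, (-1) ^ p.2 * ci p.2 * R p.1 (2 * p.2) * X ^ (p.1 * (p.1 - 1))

theorem D_eq (n : ℕ) : D n = X ^ (3 * n ^ 2 + n) := by
  have h : D n = F n (X ^ (2 * (n + 1))) := by
    unfold D F
    refine sum_congr rfl fun p hp => ?_
    have hp2 := HasAntidiagonal.mem_antidiagonal.mp hp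
    have h1 : R p.1 (2 * p.2) = R p.1 p.2 * R n p.2 := by
      rw [two_mul, R_add, hp2]
    have h2 : pb (X ^ (2 * (n + 1))) p.2 = R n p.2 := by
      unfold pb R
      refine prod_congr rfl fun i _ => ?_
      rw [← pow_add]
      congr 2; ring
    have h3 := qb_spec n p.1 p.2 hp2
    have h4 := PQ_ci p.2
    rw [h1, h2, ← h3]
    linear_combination ((-1) ^ p.2 * qb n p.2 * R n p.2 * X ^ (p.1 * (p.1 - 1))) * h4
  rw [h, F_eq, ← pow_mul, ← pow_add]
  congr 1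
  rcases n with _ | n
  · rfl
  · rw [Nat.add_sub_cancel]; ring

theorem B_succ (n : ℕ) : B (n + 1) = X ^ (2 * n + 1) * B n + (1 + X ^ (2 * n + 3)) * D (n + 1) := by
  unfold B D
  rw [Finset.Nat.sum_antidiagonal_succ, Finset.Nat.sum_antidiagonal_succ, mul_add, mul_sum,
    mul_sum]
  have e0 : be 0 (n + 1) = (1 + X ^ (2 * n + 3)) * ((-1) ^ (n + 1) * ci (n + 1)
      * R 0 (2 * (n + 1)) * X ^ (0 * (0 - 1))) := by
    unfold be
    rw [R_succ]
    have h := TT.one_sub_mul_geo (d := 2 * (n + 1) + 1) (by omega)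
    have e : (X : ℤ⟦X⟧) ^ (2 * (0 + 1 + 2 * (n + 1))) = X ^ (2 * (n + 1) + 1)
        * X ^ (2 * (n + 1) + 1) := by
      rw [← pow_add]; congr 1; ring
    rw [e]
    linear_combination ((-1) ^ (n + 1) * R 0 (2 * (n + 1)) * X ^ (0 * (0 - 1)) * ci (n + 1)
      * (1 + X ^ (2 * (n + 1) + 1))) * h
  have e1 : ∑ p ∈ antidiagonal n, be (p.1 + 1) p.2
      = ∑ p ∈ antidiagonal n, X ^ (2 * n + 1) * be p.1 p.2
        + ∑ p ∈ antidiagonal n, (1 + X ^ (2 * n + 3)) * ((-1) ^ p.2 * ci p.2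
          * R (p.1 + 1) (2 * p.2) * X ^ ((p.1 + 1) * (p.1 + 1 - 1))) := by
    rw [← sum_add_distrib]
    refine sum_congr rfl fun p hp => ?_
    have hp2 := HasAntidiagonal.mem_antidiagonal.mp hp
    unfold be
    rw [R_succ (p.1 + 1), R_succ' p.1, exp_succ, ← hp2]
    have h := TT.one_sub_mul_geo (d := 2 * p.2 + 1) (by omega)
    have a1 : (X : ℤ⟦X⟧) ^ (2 * (p.1 + 1 + 1 + 2 * p.2)) = X ^ (2 * p.1) * X ^ (2 * p.2)
        * X ^ (2 * p.2) * X ^ 4 := by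
      rw [← pow_add, ← pow_add, ← pow_add]; congr 1; ring
    have a2 : (X : ℤ⟦X⟧) ^ (2 * (p.1 + 1)) = X ^ (2 * p.1) * X ^ 2 := by
      rw [← pow_add]; congr 1
    have a3 : (X : ℤ⟦X⟧) ^ (2 * (p.1 + p.2) + 1) = X ^ (2 * p.1) * X ^ (2 * p.2) * X := by
      rw [← pow_add, ← pow_succ]; congr 1; ring
    have a4 : (X : ℤ⟦X⟧) ^ (2 * (p.1 + p.2) + 3) = X ^ (2 * p.1) * X ^ (2 * p.2) * X ^ 3 := by
      rw [← pow_add, ← pow_add]; congr 1; ring
    have a5 : (X : ℤ⟦X⟧) ^ (2 * p.2 + 1) = X ^ (2 * p.2) * X := by rw [pow_succ]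
    have a6 : (X : ℤ⟦X⟧) ^ (p.1 * (p.1 - 1) + 2 * p.1) = X ^ (p.1 * (p.1 - 1)) * X ^ (2 * p.1) := by
      rw [pow_add]
    rw [a1, a2, a3, a4, a6]
    rw [a5] at h
    linear_combination ((-1) ^ p.2 * R (p.1 + 1) (2 * p.2) * ci p.2 * X ^ (p.1 * (p.1 - 1))
      * X ^ (2 * p.1) * (1 + X ^ (2 * p.1) * X ^ (2 * p.2) * X ^ 3)) * h
  simp only at e1 ⊢
  rw [e0, e1]
  ring

/-- sums of `q^{i(i+1)/2}` -/
def Tr (K : ℕ) : ℤ⟦X⟧ := ∑ i ∈ range K, X ^ (i * (i + 1) / 2)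

theorem B_eq (n : ℕ) : B n = X ^ (n ^ 2) * Tr (2 * n + 2) := by
  induction n with
  | zero =>
    unfold B be Tr
    rw [Finset.Nat.antidiagonal_zero, sum_singleton]
    have h := TT.one_sub_mul_geo (d := 1) (by omega)
    have e : ci 0 = 1 := by simp [ci]
    rw [R_succ, mul_zero, R_zero, e]
    simp only [sum_range_succ, range_zero, sum_empty, mul_zero, zero_add]
    norm_num
    rw [pow_one] at h
    linear_combination (1 + X) * h
  | succ n ih =>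
    rw [B_succ, ih, D_eq, show 2 * (n + 1) + 2 = 2 * n + 2 + 1 + 1 by ring]
    unfold Tr
    rw [sum_range_succ _ (2 * n + 2 + 1), sum_range_succ _ (2 * n + 2)]
    have t1 : (2 * n + 2) * (2 * n + 2 + 1) / 2 = (n + 1) * (2 * n + 3) := by
      rw [show (2 * n + 2) * (2 * n + 2 + 1) = 2 * ((n + 1) * (2 * n + 3)) by ring,
        Nat.mul_div_cancel_left _ (by norm_num)]
    have t2 : (2 * n + 2 + 1) * (2 * n + 2 + 1 + 1) / 2 = (n + 1) * (2 * n + 3) + (2 * n + 3) := by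
      rw [show (2 * n + 2 + 1) * (2 * n + 2 + 1 + 1)
        = 2 * ((n + 1) * (2 * n + 3) + (2 * n + 3)) by ring,
        Nat.mul_div_cancel_left _ (by norm_num)]
    rw [t1, t2]
    have e1 : (X : ℤ⟦X⟧) ^ ((n + 1) ^ 2) = X ^ (2 * n + 1) * X ^ (n ^ 2) := by
      rw [← pow_add]; congr 1; ring
    have e2 : (X : ℤ⟦X⟧) ^ (3 * (n + 1) ^ 2 + (n + 1))
        = X ^ (2 * n + 1) * X ^ (n ^ 2) * X ^ ((n + 1) * (2 * n + 3)) := by
      rw [← pow_add, ← pow_add]; congr 1; ring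
    have e3 : (X : ℤ⟦X⟧) ^ ((n + 1) * (2 * n + 3) + (2 * n + 3))
        = X ^ ((n + 1) * (2 * n + 3)) * X ^ (2 * n + 3) := by rw [pow_add]
    rw [e1, e2, e3]
    ring

/-! ### the cone identity -/

/-- truncations of the cone sum -/
def Cn (N : ℕ) : ℤ⟦X⟧ := ∑ n ∈ range N, X ^ (2 * n) * B n

/-- truncations of the left hand side -/
def Ls (N : ℕ) : ℤ⟦X⟧ := ∑ j ∈ range N,
  (-1) ^ j * X ^ (2 * j) * (∏ i ∈ range j, (1 + X ^ (2 * (i + 1)))) * TT.geo (2 * j + 1)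

theorem P4_ci (j : ℕ) : P4 j * ci j = ∏ i ∈ range j, (1 + (X : ℤ⟦X⟧) ^ (2 * (i + 1))) := by
  unfold P4 ci
  rw [← prod_mul_distrib]
  refine prod_congr rfl fun i _ => ?_
  have h := TT.one_sub_mul_geo (d := 2 * (i + 1)) (by omega)
  have e : (X : ℤ⟦X⟧) ^ (4 * (i + 1)) = X ^ (2 * (i + 1)) * X ^ (2 * (i + 1)) := by
    rw [← pow_add]; congr 1; ring
  rw [e]
  linear_combination (1 + X ^ (2 * (i + 1))) * h

theorem Cn_eq (N : ℕ) : Cn N = ∑ j ∈ range N,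
    (-1) ^ j * X ^ (2 * j) * ci j * TT.geo (2 * j + 1) * E j (N - j) := by
  unfold Cn B E
  have h1 : ∀ n ∈ range N, X ^ (2 * n) * ∑ p ∈ antidiagonal n, be p.1 p.2
      = ∑ j ∈ range (n + 1), X ^ (2 * n) * be (n - j) j := by
    intro n _
    rw [← Finset.Nat.sum_antidiagonal_swap, Finset.Nat.sum_antidiagonal_eq_sum_range_succ_mk,
      mul_sum]
    rfl
  rw [sum_congr rfl h1]
  simp only [mul_sum]
  rw [sum_sigma', sum_sigma']
  refine sum_bij' (fun x _ => ⟨x.2, x.1 - x.2⟩) (fun x _ => ⟨x.1 + x.2, x.1⟩) ?_ ?_ ?_ ?_ ?_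
  · rintro ⟨n, j⟩ hx
    simp only [mem_sigma, mem_range] at hx ⊢
    omega
  · rintro ⟨j, k⟩ hx
    simp only [mem_sigma, mem_range] at hx ⊢
    omega
  · rintro ⟨n, j⟩ hx
    simp only [mem_sigma, mem_range] at hx
    simp only [Sigma.mk.injEq, heq_eq_eq, and_true]
    omega
  · rintro ⟨j, k⟩ hx
    simp only [mem_sigma, mem_range] at hx
    simp only [Sigma.mk.injEq, heq_eq_eq, true_and]
    omega
  · rintro ⟨n, j⟩ hx
    simp only [mem_sigma, mem_range] at hx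
    simp only
    unfold be
    obtain ⟨k, rfl⟩ : ∃ k, n = j + k := ⟨n - j, by omega⟩
    rw [Nat.add_sub_cancel_left]
    have e : (X : ℤ⟦X⟧) ^ (2 * (j + k)) * X ^ (k * (k - 1)) = X ^ (2 * j) * X ^ (k * (k + 1)) := by
      rw [← pow_add, ← pow_add]
      congr 1
      rcases k with _ | k
      · rfl
      · rw [Nat.add_sub_cancel]; ring
    linear_combination ((-1) ^ j * R k (2 * j + 1) * ci j * TT.geo (2 * j + 1)) * e

theorem cone (N : ℕ) : (X : ℤ⟦X⟧) ^ N ∣ Ls N - Cn N := by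
  rw [Cn_eq]
  unfold Ls
  rw [← sum_sub_distrib]
  refine Finset.dvd_sum fun j hj => ?_
  rw [mem_range] at hj
  obtain ⟨c, hc⟩ := E_dvd j (N - j)
  have hc' : E j (N - j) = P4 j + X ^ ((N - j) * (N - j + 1)) * c := by
    linear_combination hc
  rw [← P4_ci, hc']
  have e : (-1) ^ j * X ^ (2 * j) * (P4 j * ci j) * TT.geo (2 * j + 1)
      - (-1) ^ j * X ^ (2 * j) * ci j * TT.geo (2 * j + 1)
        * (P4 j + X ^ ((N - j) * (N - j + 1)) * c)
      = (X ^ (2 * j) * X ^ ((N - j) * (N - j + 1)))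
        * (-((-1) ^ j * ci j * TT.geo (2 * j + 1) * c)) := by ring
  rw [e, ← pow_add]
  refine Dvd.dvd.mul_right (pow_dvd_pow X ?_) _
  have : N - j ≤ (N - j) * (N - j + 1) := Nat.le_mul_of_pos_right _ (by omega)
  omega

end

end Pool.Agent.X13.QS
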